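import Pool.Agent.H72.GP.Targets
import Pool.Agent.H83.PSV.GSP

/-! Board gpo_modules, module DGG: the derivation and the local expansions. -/

set_option autoImplicit false

open Polynomial Finset
open Pool.Agent.H72.GP
open Pool.Agent.H85.PS (II MM Vec Sup Deg Jf Typ Maj Tay)
open Pool.Agent.H83.PSV (shift tp tp_apply der_tp der_pow_choose der_prod)

namespace Pool.Agent.H19.GPO

/-- one factor of the local expansion -/
noncomputable def wk {s : ℕ} (L : Fin s → PowerSeries ℚ) (e' e : Fin s → ℕ) (k : Fin s) :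
    PowerSeries ℚ := ((e k).choose (e' k) : PowerSeries ℚ) * L k ^ (e k - e' k)

/-- the product -/
noncomputable def wp {s : ℕ} (L : Fin s → PowerSeries ℚ) (e' e : Fin s → ℕ) : PowerSeries ℚ :=
  ∏ k, wk L e' e k

theorem GG_eq {s : ℕ} (L : Fin s → PowerSeries ℚ) (z0 : ℚ) (D : ℕ) (A : Vec s)
    (e' : Fin s → ℕ) : GG L z0 D A e' = ∑ e ∈ II s D, tp z0 (A e) * wp L e' e := by
  unfold GG wp wk
  refine Finset.sum_congr rfl fun e _ => ?_
  rw [Finset.prod_mul_distrib, tp_apply, mul_assoc]

theorem der_wp {s : ℕ} (L : Fin s → PowerSeries ℚ) (e' e : Fin s → ℕ) :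
    PowerSeries.derivative ℚ (wp L e' e) =
      ∑ k, (e k : PowerSeries ℚ) * wp L e' (e - Pi.single k 1) *
        PowerSeries.derivative ℚ (L k) := by
  unfold wp
  rw [der_prod]
  refine Finset.sum_congr rfl fun k _ => ?_
  have h1 : PowerSeries.derivative ℚ (wk L e' e k) =
      (e k : PowerSeries ℚ) * wk L e' (e - Pi.single k 1) k *
        PowerSeries.derivative ℚ (L k) := by
    unfold wk
    rw [der_pow_choose]
    simp
  have h2 : ∏ j ∈ Finset.univ.erase k, wk L e' e j =
      ∏ j ∈ Finset.univ.erase k, wk L e' (e - Pi.single k 1) j := by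
    refine Finset.prod_congr rfl fun j hj => ?_
    have hj' := (Finset.mem_erase.1 hj).1
    unfold wk
    simp [Pi.single_eq_of_ne hj']
  rw [h1, h2, ← Finset.mul_prod_erase _ (wk L e' (e - Pi.single k 1)) (Finset.mem_univ k)]
  ring

theorem pf_DGG : T_DGG := by
  intro s D S z0 L A hL hA e'
  have htp : ∀ k, tp z0 S.th * PowerSeries.derivative ℚ (L k) = tp z0 (S.pk k) := fun k =>
    (hL k).2
  rw [← tp_apply, GG_eq, GG_eq, map_sum, Finset.mul_sum]
  have h1 : ∀ e ∈ II s D, tp z0 S.th * PowerSeries.derivative ℚ (tp z0 (A e) * wp L e' e) =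
      tp z0 (S.th * derivative (A e)) * wp L e' e +
        ∑ k, tp z0 (S.pk k) * ((e k : PowerSeries ℚ) * tp z0 (A e) *
          wp L e' (e - Pi.single k 1)) := by
    intro e _
    rw [Derivation.leibniz, der_tp, der_wp, smul_eq_mul, smul_eq_mul, map_mul, mul_add,
      add_comm, Finset.mul_sum, Finset.mul_sum]
    congr 1
    · ring
    · refine Finset.sum_congr rfl fun k _ => ?_
      rw [← htp k]
      ring
  have h2 : ∀ e ∈ II s D, tp z0 (nab S A e) * wp L e' e =
      tp z0 (S.th * derivative (A e)) * wp L e' e +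
        ∑ k, tp z0 (S.pk k) * (((e k + 1 : ℕ) : PowerSeries ℚ) *
          tp z0 (A (e + Pi.single k 1)) * wp L e' e) := by
    intro e _
    unfold nab
    rw [map_add, map_sum, add_mul, Finset.sum_mul]
    congr 1
    refine Finset.sum_congr rfl fun k _ => ?_
    rw [map_mul, map_mul, map_natCast]
    ring
  rw [Finset.sum_congr rfl h1, Finset.sum_congr rfl h2, Finset.sum_add_distrib,
    Finset.sum_add_distrib]
  congr 1
  rw [Finset.sum_comm, Finset.sum_comm (s := II s D)]
  refine Finset.sum_congr rfl fun k _ => ?_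
  rw [← Finset.mul_sum, ← Finset.mul_sum]
  congr 1
  have h5 := shift (D := D) k
    (fun e : Fin s → ℕ => (e k : PowerSeries ℚ) * tp z0 (A e) *
      wp L e' (e - Pi.single k 1)) ?_ ?_
  · refine Eq.trans h5.symm (Finset.sum_congr rfl fun e _ => ?_)
    have h3 : e + Pi.single k 1 - Pi.single k 1 = e := by
      funext j; simp
    have h4 : (e + Pi.single k 1 : Fin s → ℕ) k = e k + 1 := by simp
    rw [h3, h4]
  · intro e he
    rw [he]; simp
  · intro e he
    rw [hA e he]; simp

end Pool.Agent.H19.GPO
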