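import Pool.Agent.H72.GP.Targets

/-! Board gpo_modules, module EVI: orders of the iterates. -/

set_option autoImplicit false

open Polynomial Finset
open Pool.Agent.H72.GP
open Pool.Agent.H85.PS (II MM Vec Sup Deg Jf Typ Maj Tay)

namespace Pool.Agent.H19.GPO

theorem sup_nab {s D : ℕ} (S : Sy s) (A : Vec s) (hA : Sup D A) : Sup D (nab S A) := by
  intro e he
  unfold nab
  rw [hA e he, derivative_zero, mul_zero, zero_add]
  refine Finset.sum_eq_zero fun k _ => ?_
  have h2 : D < ∑ j, (e + Pi.single k 1 : Fin s → ℕ) j := by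
    simp only [Pi.add_apply, Finset.sum_add_distrib]
    omega
  rw [hA _ h2, mul_zero]

theorem evf_eq {s D : ℕ} (f : Fin s → PowerSeries ℚ) (A : Vec s) :
    GG f 0 D A 0 = evf f D A := by
  unfold GG evf
  refine Finset.sum_congr rfl fun e _ => ?_
  simp

theorem pf_EVI (_hSPD : T_SPD) (hDGG : T_DGG) : T_EVI := by
  intro s D T S f A hf hA hX i
  have key : ∀ i, Sup D (nabI S i A) ∧
      (PowerSeries.X : PowerSeries ℚ) ^ (T - i) ∣ evf f D (nabI S i A) := by
    intro i
    induction i with
    | zero => exact ⟨hA, hX⟩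
    | succ i ih =>
      have e : nabI S (i + 1) A = nab S (nabI S i A) := Function.iterate_succ_apply' _ _ _
      rw [e]
      refine ⟨sup_nab S _ ih.1, ?_⟩
      have h0 := hDGG s D S 0 f _ hf ih.1 0
      rw [evf_eq, evf_eq] at h0
      rw [← h0]
      refine Dvd.dvd.mul_left ?_ _
      have h1 := PowerSeries.X_pow_dvd_iff.1 ih.2
      rw [PowerSeries.X_pow_dvd_iff]
      intro m hm
      rw [PowerSeries.coeff_derivative, h1 (m + 1) (by omega), zero_mul]
  exact (key i).2

end Pool.Agent.H19.GPO
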