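import Pool.Agent.H72.GP.Targets

/-! Board gpo_modules, module SPD: supports and degrees of the iterates. -/

set_option autoImplicit false

open Polynomial Finset
open Pool.Agent.H72.GP
open Pool.Agent.H85.PS (II MM Vec Sup Deg Jf Typ Maj Tay)

namespace Pool.Agent.H19.GPO

theorem one_step {s D m δ : ℕ} {S : Sy s} (hS : SDeg δ S) {A : Vec s} (h1 : Sup D A)
    (h2 : Deg m A) : Sup D (nab S A) ∧ Deg (m + δ) (nab S A) := by
  constructor
  · intro e he
    unfold nab
    rw [h1 e he, derivative_zero, mul_zero, zero_add]
    refine Finset.sum_eq_zero fun k _ => ?_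
    have : D < ∑ j, (e + Pi.single k 1 : Fin s → ℕ) j := by
      simp only [Pi.add_apply, Finset.sum_add_distrib]
      omega
    rw [h1 _ this, mul_zero]
  · intro e
    unfold nab
    refine natDegree_add_le_of_degree_le ?_ ?_
    · refine natDegree_mul_le.trans ?_
      have h3 := hS.1
      have h4 : (derivative (A e)).natDegree ≤ m :=
        (natDegree_derivative_le _).trans ((Nat.sub_le _ _).trans (h2 e))
      omega
    · refine natDegree_sum_le_of_forall_le _ _ fun k _ => ?_
      refine natDegree_mul_le.trans ?_
      have h3 := hS.2 k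
      have h4 := h2 (e + Pi.single k 1)
      have h5 : (S.pk k * ((e k + 1 : ℕ) : ℚ[X])).natDegree ≤ δ := by
        refine natDegree_mul_le.trans ?_
        rw [natDegree_natCast]
        omega
      omega

theorem pf_SPD : T_SPD := by
  intro s D m δ S A hS h1 h2 i
  induction i with
  | zero => simpa [nabI] using ⟨h1, h2⟩
  | succ i ih =>
    have h := one_step hS ih.1 ih.2
    unfold nabI at h ⊢
    rw [Function.iterate_succ_apply']
    refine ⟨h.1, ?_⟩
    have e : m + (i + 1) * δ = m + i * δ + δ := by ring
    rw [e]
    exact h.2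

end Pool.Agent.H19.GPO
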